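import Pool.Agent.Y710.SY.J1a

/-!
# Project SYV (helper501), job SYV-J1: the exterior derivative commutes with the averages
-/

set_option autoImplicit false

open Set Filter Topology MeasureTheory
open scoped Manifold ContDiff

noncomputable section

namespace Pool.Agent.Y710.SY

open Pool.Agent.Y501.SY Pool.Agent.Y515.SY

variable {d : ℕ}

theorem int_supp {X : Type*} [NormedAddCommGroup X] [NormedSpace ℝ X]
    {ρ : E d → ℝ} (hρ : Continuous ρ) {ε : ℝ} (hsupp : ∀ y, ε ≤ ‖y‖ → ρ y = 0)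
    (D : E d → X) (hD : ContinuousOn D (Metric.closedBall 0 ε)) :
    Integrable (fun y => ρ y • D y) := by
  have hsub : Function.support (fun y => ρ y • D y) ⊆ Metric.closedBall 0 ε := by
    intro y hy
    rw [mem_closedBall_zero_iff]
    by_contra hcon
    rw [not_le] at hcon
    apply hy
    dsimp only
    rw [hsupp y hcon.le, zero_smul]
  rw [← integrableOn_iff_integrable_of_support_subset hsub]
  exact (hρ.continuousOn.smul hD).integrableOn_compact (isCompact_closedBall 0 ε)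

/-- a continuous linear map and a weighted integral -/
theorem int_eq {F H : Type*} [NormedAddCommGroup F] [NormedSpace ℝ F] [CompleteSpace F]
    [NormedAddCommGroup H] [NormedSpace ℝ H] [CompleteSpace H] (T : (E d →L[ℝ] F) →L[ℝ] H)
    {ρ : E d → ℝ} (hρ : Continuous ρ) {ε : ℝ} (hsupp : ∀ y, ε ≤ ‖y‖ → ρ y = 0)
    (D : E d → (E d →L[ℝ] F)) (hD : ContinuousOn D (Metric.closedBall 0 ε)) {g : E d → H}
    (hg : ∀ y, T (ρ y • D y) = g y) : Integrable g ∧ T (∫ y, ρ y • D y) = ∫ y, g y := by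
  have hDi : Integrable (fun y => ρ y • D y) := int_supp hρ hsupp D hD
  constructor
  · have h4 := T.integrable_comp hDi
    exact h4.congr (Eventually.of_forall fun y => hg y)
  · rw [← T.integral_comp_comm hDi]
    exact integral_congr_ae (Eventually.of_forall fun y => hg y)

theorem cont_fd {W : Type*} [NormedAddCommGroup W] [NormedSpace ℝ W] {F : E d × E d → W}
    {Ω : Set (E d × E d)} (hΩo : IsOpen Ω) (hFΩ : ContDiffOn ℝ ∞ F Ω) {p₀ : E d} {ε : ℝ}
    (hmem : ∀ y : E d, ‖y‖ ≤ ε → (y, p₀) ∈ Ω) :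
    ContinuousOn (fun y => fderiv ℝ (fun p => F (y, p)) p₀) (Metric.closedBall 0 ε) := by
  have hfd : ∀ y : E d, ‖y‖ ≤ ε → fderiv ℝ (fun p => F (y, p)) p₀ =
      (fderiv ℝ F (y, p₀)).comp (ContinuousLinearMap.inr ℝ (E d) (E d)) := by
    intro y hy
    have h3 : DifferentiableAt ℝ F (y, p₀) :=
      (hFΩ.contDiffAt (hΩo.mem_nhds (hmem y hy))).differentiableAt (by simp)
    exact (h3.hasFDerivAt.comp p₀ (hasFDerivAt_prodMk_right y p₀)).fderiv
  have h4 : ContinuousOn (fun y => (fderiv ℝ F (y, p₀)).comp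
      (ContinuousLinearMap.inr ℝ (E d) (E d))) (Metric.closedBall 0 ε) := by
    have h5 : ContinuousOn (fderiv ℝ F) Ω := hFΩ.continuousOn_fderiv_of_isOpen hΩo (by simp)
    have h6 : ContinuousOn (fun y : E d => fderiv ℝ F (y, p₀)) (Metric.closedBall 0 ε) := by
      refine h5.comp (by fun_prop) ?_
      intro y hy
      rw [mem_closedBall_zero_iff] at hy
      exact hmem y hy
    exact h6.clm_comp continuousOn_const
  refine h4.congr ?_
  intro y hy
  rw [mem_closedBall_zero_iff] at hy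
  exact hfd y hy

theorem JJ1_sm (hSM : S_SM) {ρ χ : E d → ℝ} {ε : ℝ} (hρ : Moll ε ρ) (hχ : ContDiff ℝ ∞ χ)
    {Φ : E d → Al d 1} {O : Set (E d)} (hO : IsOpen O) (hΦ : ContDiffOn ℝ ∞ Φ O) {p₀ : E d}
    (hp : ∀ y, ‖y‖ ≤ ε → p₀ + χ p₀ • y ∈ O) :
    ContDiffAt ℝ ∞ (JJ1 ρ χ Φ) p₀ ∧
      Integrable (fun y => ρ y • (extDeriv Φ (p₀ + χ p₀ • y)).compContinuousLinearMap
        (LL (fderiv ℝ χ p₀) y)) ∧
      extDeriv (JJ1 ρ χ Φ) p₀ = JJ ρ χ (extDeriv Φ) p₀ := by
  set F : E d × E d → Al d 1 := fun q =>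
    (Φ (q.2 + χ q.2 • q.1)).compContinuousLinearMap (LL (fderiv ℝ χ q.2) q.1) with hF
  set Ω : Set (E d × E d) := {q | q.2 + χ q.2 • q.1 ∈ O} with hΩ
  have hT : ContDiff ℝ ∞ (fun q : E d × E d => q.2 + χ q.2 • q.1) :=
    contDiff_snd.add ((hχ.comp contDiff_snd).smul contDiff_fst)
  have hΩo : IsOpen Ω := hO.preimage hT.continuous
  have hdχ : ContDiff ℝ ∞ (fderiv ℝ χ) := hχ.fderiv_right (by simp)
  have hL : ContDiff ℝ ∞ (fun q : E d × E d => LL (fderiv ℝ χ q.2) q.1) := by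
    unfold LL
    exact contDiff_const.add ((hdχ.comp contDiff_snd).smulRight contDiff_fst)
  have hFΩ : ContDiffOn ℝ ∞ F Ω := by
    intro q hq
    refine ContDiffAt.contDiffWithinAt ?_
    refine comp1_contDiffAt ?_ hL.contDiffAt
    exact (hΦ.contDiffAt (hO.mem_nhds hq)).comp q hT.contDiffAt
  have hmem : ∀ y : E d, ‖y‖ ≤ ε → (y, p₀) ∈ Ω := fun y hy => hp y hy
  obtain ⟨h1, h2⟩ := hSM d (Al d 1) ρ F p₀ ε Ω hρ.smooth.continuous hρ.supp hΩo hFΩ hmem
  refine ⟨h1, ?_⟩
  set A := ContinuousAlternatingMap.alternatizeUncurryFinCLM ℝ (E d) ℝ (n := 1) with hA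
  have hAD : ∀ y, A (ρ y • fderiv ℝ (fun p => F (y, p)) p₀) =
      ρ y • (extDeriv Φ (p₀ + χ p₀ • y)).compContinuousLinearMap (LL (fderiv ℝ χ p₀) y) := by
    intro y
    have e0 : A (ρ y • fderiv ℝ (fun p => F (y, p)) p₀) =
      ρ y • A (fderiv ℝ (fun p => F (y, p)) p₀) := map_smul _ _ _
    rw [e0]
    by_cases hy : ‖y‖ ≤ ε
    · have e1 : (fun p => F (y, p)) = fun p => (Φ ((fun q => q + χ q • y)
          p)).compContinuousLinearMap (fderiv ℝ (fun q => q + χ q • y) p) := by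
        funext p
        rw [T_fderiv hχ]
      have e2 : A (fderiv ℝ (fun p => F (y, p)) p₀) = extDeriv (fun p => F (y, p)) p₀ := rfl
      have hTd : ContDiffAt ℝ ∞ (fun q => q + χ q • y) p₀ :=
        (contDiff_id.add (hχ.smul contDiff_const)).contDiffAt
      have hΦd : DifferentiableAt ℝ Φ ((fun q => q + χ q • y) p₀) :=
        (hΦ.contDiffAt (hO.mem_nhds (hp y hy))).differentiableAt (by simp)
      have e3 := extDeriv_pullback (f := fun q => q + χ q • y) (r := ∞) hΦd hTd smooth2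
      rw [e2, e1, e3, T_fderiv hχ]
    · rw [not_le] at hy
      rw [hρ.supp y hy.le, zero_smul, zero_smul]
  have h3 : extDeriv (JJ1 ρ χ Φ) p₀ = A (∫ y, ρ y • fderiv ℝ (fun p => F (y, p)) p₀) := by
    rw [← h2.fderiv]
    rfl
  obtain ⟨h4, h5⟩ := int_eq A hρ.smooth.continuous hρ.supp _ (cont_fd hΩo hFΩ hmem) hAD
  refine ⟨h4, ?_⟩
  rw [h3, h5]
  rfl

/-- the exterior derivative of a product -/
theorem ext1_smul {χ : E d → ℝ} {om : E d → Al d 1} {p : E d}
    (hχ : DifferentiableAt ℝ χ p) (hom : DifferentiableAt ℝ om p) :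
    extDeriv (fun q => χ q • om q) p = χ p • extDeriv om p +
      ContinuousAlternatingMap.alternatizeUncurryFin ((fderiv ℝ χ p).smulRight (om p)) := by
  unfold extDeriv
  rw [fderiv_fun_smul hχ hom, ContinuousAlternatingMap.alternatizeUncurryFin_add,
    ContinuousAlternatingMap.alternatizeUncurryFin_smul]

theorem ext1_zero {om : E d → Al d 1} {p : E d} (h : om =ᶠ[𝓝 p] fun _ => 0) :
    extDeriv om p = 0 := by
  rw [h.extDeriv_eq]
  unfold extDeriv
  rw [fderiv_fun_const]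
  exact map_zero (ContinuousAlternatingMap.alternatizeUncurryFinCLM ℝ (E d) ℝ)

theorem wedge2_norm (a : E d →L[ℝ] ℝ) (s : Al d 1) :
    ‖ContinuousAlternatingMap.alternatizeUncurryFin (a.smulRight s)‖ ≤ 2 * (‖a‖ * ‖s‖) := by
  refine (ContinuousAlternatingMap.norm_alternatizeUncurryFin_le _).trans ?_
  rw [ContinuousLinearMap.norm_smulRight_apply]
  norm_num

section ind

variable {V k : Set (E d)} {s : E d → Al d 1}

theorem ind1_sm (hVk : IsOpen (V \ k)) (hs : ContDiffOn ℝ ∞ s (V \ k)) :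
    StronglyMeasurable ((V \ k).indicator s) := by
  refine stronglyMeasurable_of_restrict_of_restrict_compl hVk.measurableSet ?_ ?_
  · have h1 : (V \ k).domRestrict ((V \ k).indicator s) = (V \ k).domRestrict s := by
      funext x
      exact indicator_of_mem x.2 s
    rw [h1]
    exact (continuousOn_iff_continuous_domRestrict.1 hs.continuousOn).stronglyMeasurable
  · have h1 : ((V \ k)ᶜ).domRestrict ((V \ k).indicator s) = fun _ => 0 := by
      funext x
      exact indicator_of_notMem x.2 s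
    rw [h1]
    exact stronglyMeasurable_const

theorem ind1_bd {b : ℝ} (hb0 : 0 ≤ b) (hsB : ∀ p ∈ V \ k, ‖s p‖ ≤ b) (q : E d) :
    ‖(V \ k).indicator s q‖ ≤ b := by
  by_cases hq : q ∈ V \ k
  · rw [indicator_of_mem hq]
    exact hsB q hq
  · rw [indicator_of_notMem hq, norm_zero]
    exact hb0

theorem ind1_ev (hVk : IsOpen (V \ k)) {q : E d} (hq : q ∈ V \ k) :
    (V \ k).indicator s =ᶠ[𝓝 q] s := by
  filter_upwards [hVk.mem_nhds hq] with x hx
  exact indicator_of_mem hx s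

theorem ind1_smooth (hVk : IsOpen (V \ k)) (hs : ContDiffOn ℝ ∞ s (V \ k)) :
    ContDiffOn ℝ ∞ ((V \ k).indicator s) (V \ k) := by
  intro q hq
  exact ((hs.contDiffAt (hVk.mem_nhds hq)).congr_of_eventuallyEq
    (ind1_ev hVk hq)).contDiffWithinAt

theorem ext_sm (hVk : IsOpen (V \ k)) (hs : ContDiffOn ℝ ∞ s (V \ k)) :
    ContDiffOn ℝ ∞ (extDeriv s) (V \ k) := by
  have h1 : ContDiffOn ℝ ∞ (fderiv ℝ s) (V \ k) := hs.fderiv_of_isOpen hVk (by simp)
  exact (ContinuousAlternatingMap.alternatizeUncurryFinCLM ℝ (E d) ℝ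
    (n := 1)).contDiff.comp_contDiffOn h1

theorem JJ1_off (hSM : S_SM) {ρ χ : E d → ℝ} {ε : ℝ} (hρ : Moll ε ρ) (hχ : ContDiff ℝ ∞ χ)
    (hVk : IsOpen (V \ k)) (hs : ContDiffOn ℝ ∞ s (V \ k))
    {p₀ : E d} (hp : p₀ ∈ V \ k) (hp0 : χ p₀ = 0) :
    ContDiffAt ℝ ∞ (JJ1 ρ χ ((V \ k).indicator s)) p₀ ∧
      extDeriv (JJ1 ρ χ ((V \ k).indicator s)) p₀ =
        JJ ρ χ ((V \ k).indicator (extDeriv s)) p₀ := by
  obtain ⟨h1, -, h2⟩ := JJ1_sm hSM hρ hχ hVk (ind1_smooth hVk hs) (p₀ := p₀) (fun y _ => by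
    rw [hp0, zero_smul, add_zero]
    exact hp)
  refine ⟨h1, ?_⟩
  rw [h2]
  unfold JJ
  refine integral_congr_ae (Eventually.of_forall fun y => ?_)
  dsimp only
  rw [hp0, zero_smul, add_zero, (ind1_ev hVk hp).extDeriv_eq, indicator_of_mem hp]

/-- the case of points at which `χ` is positive -/
theorem JJ1_ext (hK : S_KER) (hSM : S_SM) {ρ χ : E d → ℝ} {ε : ℝ} (hε : 0 ≤ ε)
    (hρ : Moll ε ρ) (hχ : ContDiff ℝ ∞ χ)
    (hVk : IsOpen (V \ k)) (hs : ContDiffOn ℝ ∞ s (V \ k)) {b : ℝ} (hb0 : 0 ≤ b)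
    (hsB : ∀ p ∈ V \ k, ‖s p‖ ≤ b) (hdB : ∀ p ∈ V \ k, ‖extDeriv s p‖ ≤ b)
    {Q : Set (E d)} (hQV : Q ⊆ V) (hcap : Cap (k ∩ Q))
    {p₀ : E d} (hp : 0 < χ p₀) (hball : ∀ y, ‖y‖ ≤ ε → p₀ + χ p₀ • y ∈ Q) :
    extDeriv (JJ1 ρ χ ((V \ k).indicator s)) p₀ =
      JJ ρ χ ((V \ k).indicator (extDeriv s)) p₀ := by
  set Φ : E d → Al d 1 := (V \ k).indicator s with hΦ
  set Ψ : E d → Al d 2 := (V \ k).indicator (extDeriv s) with hΨ
  have hf : StronglyMeasurable Φ := ind1_sm hVk hs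
  have hb : ∀ q, ‖Φ q‖ ≤ b := ind1_bd hb0 hsB
  have hfΨ : StronglyMeasurable Ψ := ind_sm hVk (ext_sm hVk hs)
  have hbΨ : ∀ q, ‖Ψ q‖ ≤ b := ind_bd hb0 hdB
  have hρc := moll_cs hρ
  rw [← sub_eq_zero]
  apply ContinuousAlternatingMap.ext
  intro u
  change (extDeriv (JJ1 ρ χ Φ) p₀ - JJ ρ χ Ψ p₀) u = 0
  choose Ci hCi0 hCi using fun i : Fin 2 =>
    JJ1_fd hK hχ hp hρ.smooth hρc (i.removeNth u 0)
  obtain ⟨C1, hC1⟩ := (hK d ρ χ hρ.smooth hρc hχ p₀ hp).2
  set l : ℝ := 1 + ‖fderiv ℝ χ p₀‖ * ε with hl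
  have hl0 : 0 ≤ l := by positivity
  have key : ∀ δ' : ℝ, 0 < δ' → |(extDeriv (JJ1 ρ χ Φ) p₀ - JJ ρ χ Ψ p₀) u| ≤
      ((3 * b * l ^ 2) * |C1| * (∏ i, ‖u i‖) + ∑ i, Ci i * b * ‖u i‖) * δ' := by
    intro δ' hδ'
    obtain ⟨η, hη, hη0, hη1, hηk, -, hηc, hηv, hηi⟩ :=
      hcap univ isOpen_univ (subset_univ _) δ' hδ'
    set s1 : E d → Al d 1 := fun q => (1 - η q) • Φ q with hs1
    set s2 : E d → Al d 1 := fun q => η q • Φ q with hs2
    have hf1 : StronglyMeasurable s1 :=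
      (continuous_const.sub hη.continuous).stronglyMeasurable.smul hf
    have hf2 : StronglyMeasurable s2 := hη.continuous.stronglyMeasurable.smul hf
    have hb1 : ∀ q, ‖s1 q‖ ≤ b := by
      intro q
      rw [hs1, norm_smul, Real.norm_of_nonneg (by linarith [hη1 q])]
      have h1 : (1 - η q) * ‖Φ q‖ ≤ 1 * b :=
        mul_le_mul (by linarith [hη0 q]) (hb q) (norm_nonneg _) zero_le_one
      rwa [one_mul] at h1
    have hb2' : ∀ q, ‖s2 q‖ ≤ η q * b := by
      intro q
      rw [hs2, norm_smul, Real.norm_of_nonneg (hη0 q)]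
      exact mul_le_mul_of_nonneg_left (hb q) (hη0 q)
    have hb2 : ∀ q, ‖s2 q‖ ≤ b := fun q => (hb2' q).trans
      (mul_le_of_le_one_left hb0 (hη1 q))
    have hsum : JJ1 ρ χ Φ = JJ1 ρ χ s1 + JJ1 ρ χ s2 := by
      funext p
      rw [Pi.add_apply, ← JJ1_add hρ.smooth.continuous hρc hf1 hb1 hf2 hb2]
      congr 1
      funext q
      simp only [hs1, hs2]
      rw [← add_smul, sub_add_cancel, one_smul]
    have hd1 : DifferentiableAt ℝ (JJ1 ρ χ s1) p₀ :=
      (JJ1_smooth hK hχ hp hρ.smooth hρc hf1 hb1).differentiableAt (by simp)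
    have hd2 : DifferentiableAt ℝ (JJ1 ρ χ s2) p₀ :=
      (JJ1_smooth hK hχ hp hρ.smooth hρc hf2 hb2).differentiableAt (by simp)
    rw [hsum, extDeriv_add hd1 hd2]
    -- the small part
    have hηI : Integrable η := hη.continuous.integrable_of_hasCompactSupport hηc
    have hi2 : Integrable s2 :=
      (hηI.mul_const b).mono' hf2.aestronglyMeasurable (Eventually.of_forall hb2')
    have hv3 : (volume : Measure (E d)).real (Function.support η) ≤ δ' := by
      unfold Measure.real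
      exact ENNReal.toReal_le_of_le_ofReal hδ'.le hηv.le
    have hm2 : ∫ x, ‖s2 x‖ ≤ b * δ' := by
      have h1 : ∫ x, ‖s2 x‖ = ∫ x in Function.support η, ‖s2 x‖ := by
        refine (setIntegral_eq_integral_of_forall_compl_eq_zero fun t ht => ?_).symm
        rw [Function.notMem_support] at ht
        simp only [hs2]
        rw [ht, zero_smul, norm_zero]
      have h2 : ‖∫ x in Function.support η, ‖s2 x‖‖ ≤
          b * (volume : Measure (E d)).real (Function.support η) :=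
        norm_setIntegral_le_of_norm_le_const (hηv.trans ENNReal.ofReal_lt_top) fun t _ => by
          rw [norm_norm]
          exact hb2 t
      rw [h1]
      exact (le_abs_self _).trans (h2.trans (mul_le_mul_of_nonneg_left hv3 hb0))
    have hmη : ∫ x, η x ≤ δ' := by
      have h1 : ∫ x, η x = ∫ x in Function.support η, η x := by
        refine (setIntegral_eq_integral_of_forall_compl_eq_zero fun t ht => ?_).symm
        rw [Function.notMem_support] at ht
        exact ht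
      have h2 : ‖∫ x in Function.support η, η x‖ ≤
          1 * (volume : Measure (E d)).real (Function.support η) :=
        norm_setIntegral_le_of_norm_le_const (hηv.trans ENNReal.ofReal_lt_top) fun t _ => by
          rw [Real.norm_of_nonneg (hη0 t)]
          exact hη1 t
      rw [h1]
      rw [one_mul] at h2
      exact (le_abs_self _).trans (h2.trans hv3)
    have part2 : |extDeriv (JJ1 ρ χ s2) p₀ u| ≤ (∑ i, Ci i * b * ‖u i‖) * δ' := by
      rw [extDeriv_apply hd2, Finset.sum_mul]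
      refine (Finset.abs_sum_le_sum_abs _ _).trans (Finset.sum_le_sum fun i _ => ?_)
      have h1 : |(-1 : ℤ) ^ i.val • fderiv ℝ (fun x => JJ1 ρ χ s2 x (i.removeNth u)) p₀ (u i)| =
          |fderiv ℝ (fun x => JJ1 ρ χ s2 x (i.removeNth u)) p₀ (u i)| := by
        rcases neg_one_pow_eq_or ℤ i.val with h | h <;> rw [h] <;> simp
      have h2 : |fderiv ℝ (fun x => JJ1 ρ χ s2 x (i.removeNth u)) p₀ (u i)| ≤
          Ci i * b * ‖u i‖ * δ' := by
        have h3 := (fderiv ℝ (fun x => JJ1 ρ χ s2 x (i.removeNth u)) p₀).le_opNorm (u i)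
        have h4 := hCi i s2 b hf2 hb2 hi2
        rw [← one_eta (i.removeNth u)] at h4
        rw [Real.norm_eq_abs] at h3
        refine h3.trans ?_
        calc _ ≤ Ci i * (b * δ') * ‖u i‖ :=
              mul_le_mul_of_nonneg_right (h4.trans (mul_le_mul_of_nonneg_left hm2 (hCi0 i)))
                (norm_nonneg _)
          _ = _ := by ring
      refine le_trans (le_of_eq ?_) h2
      convert h1 using 2
    -- the smooth part
    set O : Set (E d) := (V \ k) ∪ interior {x | η x = 1} with hO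
    have hOo : IsOpen O := hVk.union isOpen_interior
    have hev1 : ∀ q ∈ interior {x | η x = 1}, s1 =ᶠ[𝓝 q] fun _ => 0 := by
      intro q hq
      filter_upwards [isOpen_interior.mem_nhds hq] with x hx
      have hx1 : x ∈ {x | η x = 1} := interior_subset hx
      rw [mem_ofPred_eq] at hx1
      simp only [hs1]
      rw [hx1, sub_self, zero_smul]
    have hev2 : ∀ q ∈ V \ k, s1 =ᶠ[𝓝 q] fun x => (1 - η x) • s x := by
      intro q hq
      filter_upwards [ind1_ev (s := s) hVk hq] with x hx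
      simp only [hs1, hΦ]
      rw [hx]
    have hη' : ContDiff ℝ ∞ (fun x => 1 - η x) := contDiff_const.sub hη
    have hsm1 : ContDiffOn ℝ ∞ s1 O := by
      intro q hq
      refine ContDiffAt.contDiffWithinAt ?_
      rcases hq with hq | hq
      · exact (hη'.contDiffAt.smul (hs.contDiffAt (hVk.mem_nhds hq))).congr_of_eventuallyEq
          (hev2 q hq)
      · exact contDiffAt_const.congr_of_eventuallyEq (hev1 q hq)
    have hkint : ∀ q ∈ k ∩ Q, q ∈ interior {x | η x = 1} := by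
      intro q hq
      rw [mem_interior_iff_mem_nhds]
      exact (eventually_nhdsSet_iff_forall.1 hηk) q hq
    have hQO : ∀ y, ‖y‖ ≤ ε → p₀ + χ p₀ • y ∈ O := by
      intro y hy
      have h1 := hball y hy
      by_cases hk' : p₀ + χ p₀ • y ∈ k
      · exact Or.inr (hkint _ ⟨hk', h1⟩)
      · exact Or.inl ⟨hQV h1, hk'⟩
    obtain ⟨-, hint1, h2⟩ := JJ1_sm hSM hρ hχ hOo hsm1 hQO
    have hdη : Continuous (fun x => ‖fderiv ℝ η x‖) := (hη.continuous_fderiv (by simp)).norm
    obtain ⟨M, hM⟩ : ∃ M, ∀ x, ‖fderiv ℝ η x‖ ≤ M :=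
      (hη.continuous_fderiv (by simp)).bounded_above_of_compact_support (hηc.fderiv ℝ)
    set γ : E d → ℝ := fun x => η x + 2 * ‖fderiv ℝ η x‖ with hγ
    have hγ0 : ∀ x, 0 ≤ γ x := fun x => by
      have := hη0 x
      simp only [hγ]
      positivity
    have hγc : Continuous γ := hη.continuous.add (continuous_const.mul hdη)
    have hγb : ∀ x, |γ x| ≤ 1 + 2 * M := fun x => by
      rw [abs_of_nonneg (hγ0 x)]
      have h1 := hη1 x
      have h2 := hM x
      simp only [hγ]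
      linarith
    have hdηi : Integrable (fun x => ‖fderiv ℝ η x‖) :=
      hdη.integrable_of_hasCompactSupport (hηc.fderiv ℝ).norm
    have hγi : Integrable γ := hηI.add (hdηi.const_mul 2)
    have hγm : ∫ x, |γ x| ≤ 3 * δ' := by
      have h1 : ∫ x, |γ x| = ∫ x, (η x + 2 * ‖fderiv ℝ η x‖) := by
        refine integral_congr_ae (Eventually.of_forall fun x => ?_)
        exact abs_of_nonneg (hγ0 x)
      rw [h1, integral_add hηI (hdηi.const_mul 2), integral_const_mul]
      linarith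
    have hgi : Integrable (fun y => ρ y * γ (p₀ + χ p₀ • y)) :=
      II_int (χ := χ) hρ.smooth.continuous hρc hγc.stronglyMeasurable hγb p₀
    have hint2 := JJ_int (χ := χ) hρ.smooth.continuous hρc hfΨ hbΨ p₀
    have hdiff : ‖JJ ρ χ (extDeriv s1) p₀ - JJ ρ χ Ψ p₀‖ ≤
        ∫ y, (b * l ^ 2) * (ρ y * γ (p₀ + χ p₀ • y)) := by
      unfold JJ
      rw [← integral_sub hint1 hint2]
      refine norm_integral_le_of_norm_le (hgi.const_mul _) (Eventually.of_forall fun y => ?_)
      by_cases hy : ‖y‖ ≤ ε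
      · set q : E d := p₀ + χ p₀ • y with hq
        have hqQ : q ∈ Q := hball y hy
        have h4 : ‖extDeriv s1 q - Ψ q‖ ≤ b * γ q := by
          by_cases hqk : q ∈ k
          · have hqn : q ∉ V \ k := fun h => h.2 hqk
            have h5 : Ψ q = 0 := indicator_of_notMem hqn _
            rw [ext1_zero (hev1 q (hkint q ⟨hqk, hqQ⟩)), h5, sub_self, norm_zero]
            exact mul_nonneg hb0 (hγ0 q)
          · have hqVk : q ∈ V \ k := ⟨hQV hqQ, hqk⟩
            have h5 : Ψ q = extDeriv s q := indicator_of_mem hqVk _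
            have h6 : fderiv ℝ (fun x => 1 - η x) q = -fderiv ℝ η q := fderiv_const_sub _
            have h7 : extDeriv s1 q - Ψ q = -(η q • extDeriv s q) +
                ContinuousAlternatingMap.alternatizeUncurryFin
                  ((fderiv ℝ (fun x => 1 - η x) q).smulRight (s q)) := by
              rw [(hev2 q hqVk).extDeriv_eq, ext1_smul ((hη'.differentiable (by simp)) q)
                ((hs.contDiffAt (hVk.mem_nhds hqVk)).differentiableAt (by simp)), h5, sub_smul,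
                one_smul]
              abel
            rw [h7]
            refine (norm_add_le _ _).trans ?_
            have h8 := wedge2_norm (fderiv ℝ (fun x => 1 - η x) q) (s q)
            rw [h6, norm_neg] at h8
            rw [h6, norm_neg, norm_smul, Real.norm_of_nonneg (hη0 q)]
            have h9 := mul_le_mul_of_nonneg_left (hsB q hqVk) (norm_nonneg (fderiv ℝ η q))
            have h10 := mul_le_mul_of_nonneg_left (hdB q hqVk) (hη0 q)
            have h11 : b * γ q = η q * b + 2 * (‖fderiv ℝ η q‖ * b) := by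
              simp only [hγ]
              ring
            rw [h11]
            linarith
        have h5 : ‖LL (fderiv ℝ χ p₀) y‖ ≤ l := by
          refine (LL_norm _ _).trans ?_
          rw [hl]
          have := mul_le_mul_of_nonneg_left hy (norm_nonneg (fderiv ℝ χ p₀))
          linarith
        have h6 : ‖(extDeriv s1 q - Ψ q).compContinuousLinearMap (LL (fderiv ℝ χ p₀) y)‖ ≤
            (b * γ q) * l ^ 2 :=
          (comp_norm _ _).trans (mul_le_mul h4 (pow_le_pow_left₀ (norm_nonneg _) h5 2)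
            (by positivity) (mul_nonneg hb0 (hγ0 q)))
        have h7 : ρ y • (extDeriv s1 q).compContinuousLinearMap (LL (fderiv ℝ χ p₀) y) -
            ρ y • (Ψ q).compContinuousLinearMap (LL (fderiv ℝ χ p₀) y) =
            ρ y • (extDeriv s1 q - Ψ q).compContinuousLinearMap (LL (fderiv ℝ χ p₀) y) := by
          rw [← smul_sub]
          rfl
        rw [h7, norm_smul, Real.norm_of_nonneg (hρ.nonneg y)]
        calc _ ≤ ρ y * ((b * γ q) * l ^ 2) :=
              mul_le_mul_of_nonneg_left h6 (hρ.nonneg y)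
          _ = _ := by ring
      · rw [not_le] at hy
        rw [hρ.supp y hy.le, zero_smul, zero_smul, sub_zero, norm_zero, zero_mul, mul_zero]
    have part1 : |(extDeriv (JJ1 ρ χ s1) p₀ - JJ ρ χ Ψ p₀) u| ≤
        (3 * b * l ^ 2) * |C1| * (∏ i, ‖u i‖) * δ' := by
      rw [h2]
      have h4 := (JJ ρ χ (extDeriv s1) p₀ - JJ ρ χ Ψ p₀).le_opNorm u
      rw [Real.norm_eq_abs] at h4
      rw [integral_const_mul] at hdiff
      have h5 := (hC1 γ hγc.aestronglyMeasurable ⟨_, hγb⟩ hγi).1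
      have h6 : ∫ y, ρ y * γ (p₀ + χ p₀ • y) ≤ |C1| * (3 * δ') := by
        refine (le_abs_self _).trans (h5.trans ?_)
        have h7 : 0 ≤ ∫ x, |γ x| := integral_nonneg fun x => abs_nonneg _
        calc C1 * ∫ x, |γ x| ≤ |C1| * ∫ x, |γ x| :=
              mul_le_mul_of_nonneg_right (le_abs_self _) h7
          _ ≤ |C1| * (3 * δ') := mul_le_mul_of_nonneg_left hγm (abs_nonneg _)
      have h7 : 0 ≤ ∏ i, ‖u i‖ := Finset.prod_nonneg fun i _ => norm_nonneg _
      calc |(JJ ρ χ (extDeriv s1) p₀ - JJ ρ χ Ψ p₀) u|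
          ≤ ‖JJ ρ χ (extDeriv s1) p₀ - JJ ρ χ Ψ p₀‖ * ∏ i, ‖u i‖ := h4
        _ ≤ (b * l ^ 2 * (|C1| * (3 * δ'))) * ∏ i, ‖u i‖ :=
            mul_le_mul_of_nonneg_right (hdiff.trans
              (mul_le_mul_of_nonneg_left h6 (by positivity))) h7
        _ = _ := by ring
    calc |(extDeriv (JJ1 ρ χ s1) p₀ + extDeriv (JJ1 ρ χ s2) p₀ - JJ ρ χ Ψ p₀) u|
        = |(extDeriv (JJ1 ρ χ s1) p₀ - JJ ρ χ Ψ p₀) u + extDeriv (JJ1 ρ χ s2) p₀ u| := by
          congr 1
          change (extDeriv (JJ1 ρ χ s1) p₀ u + extDeriv (JJ1 ρ χ s2) p₀ u) - JJ ρ χ Ψ p₀ u =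
            (extDeriv (JJ1 ρ χ s1) p₀ u - JJ ρ χ Ψ p₀ u) + extDeriv (JJ1 ρ χ s2) p₀ u
          ring
      _ ≤ _ := (abs_add_le _ _).trans (add_le_add part1 part2)
      _ = _ := by ring
  set Z : ℝ := (extDeriv (JJ1 ρ χ Φ) p₀ - JJ ρ χ Ψ p₀) u with hZ
  set Ct : ℝ := (3 * b * l ^ 2) * |C1| * (∏ i, ‖u i‖) + ∑ i, Ci i * b * ‖u i‖ with hCt
  by_contra hne
  have hpos : 0 < |Z| := abs_pos.2 hne
  have hCt0 : 0 ≤ Ct := by
    have h1 := key 1 one_pos
    linarith [abs_nonneg Z]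
  have h1 := key (|Z| / (2 * (Ct + 1))) (by positivity)
  have h2 : Ct * (|Z| / (2 * (Ct + 1))) ≤ |Z| / 2 := by
    rw [mul_div_assoc', div_le_div_iff₀ (by positivity) two_pos]
    nlinarith
  linarith

end ind

/-- the exterior derivative commutes with the averages -/
theorem t_J1 : Pool.Agent.Y501.SY.S_J1 := by
  intro hK hSM d V k Q χ ρ b B ε hVk hQV hcap hχ hχ0 hε hρ hb hB hbB hdB p₀ hp₀
  rcases hp₀ with ⟨hp, hp0⟩ | ⟨hp, hball⟩
  · exact JJ1_off hSM hρ hχ hVk hb hp hp0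
  · refine ⟨JJ1_smooth hK hχ hp hρ.smooth (moll_cs hρ) (ind1_sm hVk hb) (ind1_bd hB hbB), ?_⟩
    exact JJ1_ext hK hSM hε.le hρ hχ hVk hb hB hbB hdB hQV hcap hp hball

end Pool.Agent.Y710.SY
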