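import Pool.Agent.Y501.SY.StmV
import Pool.Agent.Y515.SY.RG3

/-!
# Project SYV (helper501), job SYV-J1, first part: averages of one-forms

An adaptation of the files RG1, RG2, RG3 of Y515 to one-forms.
-/

set_option autoImplicit false

open Set Filter Topology MeasureTheory
open scoped Manifold ContDiff

noncomputable section

namespace Pool.Agent.Y710.SY

open Pool.Agent.Y501.SY Pool.Agent.Y515.SY

variable {d : ℕ}

/-- linear in the variable -/
def l1 (η : Al d 1) : E d →ₗ[ℝ] ℝ :=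
  η.toAlternatingMap.toMultilinearMap.toLinearMap ![0] 0

theorem l1_apply (η : Al d 1) (v : E d) : l1 η v = η ![v] := by
  have e : Function.update (![0] : Fin 1 → E d) 0 v = ![v] := by
    ext i
    fin_cases i
    simp
  change η (Function.update ![0] 0 v) = _
  rw [e]

theorem one_sum (η : Al d 1) (y : E d) : η ![y] = ∑ i, y i * η ![bs i] := by
  conv_lhs => rw [← l1_apply, ← sum_bs y, map_sum]
  refine Finset.sum_congr rfl fun i _ => ?_
  rw [map_smul, l1_apply, smul_eq_mul]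

theorem expand1 (η : Al d 1) (v y : E d) (a : ℝ) : η ![v + a • y] = η ![v] + a * η ![y] := by
  rw [← l1_apply, map_add, map_smul, l1_apply, l1_apply, smul_eq_mul]

theorem one_bound (η : Al d 1) (v : E d) : |η ![v]| ≤ ‖η‖ * ‖v‖ := by
  have := η.le_opNorm ![v]
  simpa [Real.norm_eq_abs] using this

theorem one_eta (v : Fin 1 → E d) : v = ![v 0] := by
  ext i
  fin_cases i
  rfl

/-- the values on basis vectors -/
def evL1 : Al d 1 →ₗ[ℝ] (Fin d → ℝ) where
  toFun η := fun i => η ![bs i]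
  map_add' η η' := by ext i; rfl
  map_smul' c η := by ext i; rfl

theorem evL1_inj : Function.Injective (evL1 (d := d)) := by
  intro η η' h
  apply ContinuousAlternatingMap.ext
  intro v
  rw [one_eta v, one_sum, one_sum η']
  refine Finset.sum_congr rfl fun i _ => ?_
  have := congrFun h i
  change η ![bs i] = η' ![bs i] at this
  rw [this]

instance finAl1 : FiniteDimensional ℝ (Al d 1) := FiniteDimensional.of_injective evL1 evL1_inj

theorem contDiffAt_of_eval1 {F : Type*} [NormedAddCommGroup F] [NormedSpace ℝ F]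
    {f : F → Al d 1} {x : F} {n : WithTop ℕ∞}
    (h : ∀ v : E d, ContDiffAt ℝ n (fun p => f p ![v]) x) : ContDiffAt ℝ n f x := by
  obtain ⟨g, hg⟩ := LinearMap.exists_leftInverse_of_injective (evL1 (d := d))
    (LinearMap.ker_eq_bot.2 evL1_inj)
  have e1 : f = fun p => (LinearMap.toContinuousLinearMap g) (evL1 (f p)) := by
    funext p
    have := congrArg (fun T : Al d 1 →ₗ[ℝ] Al d 1 => T (f p)) hg
    exact this.symm
  rw [e1]
  refine (LinearMap.toContinuousLinearMap g).contDiff.contDiffAt.comp x ?_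
  rw [contDiffAt_pi]
  intro i
  exact h _

theorem comp_one (η : Al d 1) (T : E d →L[ℝ] E d) (v : E d) :
    (η.compContinuousLinearMap T) ![v] = η ![T v] := by
  change η (T ∘ ![v]) = _
  congr 1
  ext i
  fin_cases i
  rfl

theorem comp1_contDiffAt {F : Type*} [NormedAddCommGroup F] [NormedSpace ℝ F]
    {f : F → Al d 1} {T : F → (E d →L[ℝ] E d)} {x : F} {n : WithTop ℕ∞}
    (hf : ContDiffAt ℝ n f x) (hT : ContDiffAt ℝ n T x) :
    ContDiffAt ℝ n (fun p => (f p).compContinuousLinearMap (T p)) x := by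
  apply contDiffAt_of_eval1
  intro v
  have e1 : (fun p => ((f p).compContinuousLinearMap (T p)) ![v]) =
      fun p => ∑ i, (T p v) i * f p ![bs i] := by
    funext p
    rw [comp_one, one_sum]
  rw [e1]
  have hc : ∀ (u : E d) (i : Fin d), ContDiffAt ℝ n (fun p => (T p u) i) x := by
    intro u i
    have h1 : ContDiffAt ℝ n (fun p => T p u) x := hT.clm_apply contDiffAt_const
    exact (EuclideanSpace.proj (𝕜 := ℝ) i).contDiff.contDiffAt.comp x h1
  have hev : ∀ i : Fin d, ContDiffAt ℝ n (fun p => f p ![bs i]) x := by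
    intro i
    exact (ContinuousAlternatingMap.apply ℝ (E d) ℝ ![bs i]).contDiff.contDiffAt.comp x hf
  exact ContDiffAt.sum fun i _ => (hc v i).mul (hev i)

theorem comp1_cont : Continuous
    (fun q : Al d 1 × (E d →L[ℝ] E d) => q.1.compContinuousLinearMap q.2) := by
  have h : ContDiff ℝ 0 (fun q : Al d 1 × (E d →L[ℝ] E d) => q.1.compContinuousLinearMap q.2) := by
    rw [contDiff_iff_contDiffAt]
    intro x
    exact comp1_contDiffAt contDiffAt_fst contDiffAt_snd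
  exact h.continuous

theorem comp1_norm (η : Al d 1) (T : E d →L[ℝ] E d) :
    ‖η.compContinuousLinearMap T‖ ≤ ‖η‖ * ‖T‖ := by
  have := ContinuousAlternatingMap.norm_compContinuousLinearMap_le η T
  simpa using this

theorem JJ1_int {ρ χ : E d → ℝ} (hg : Continuous ρ) (hgc : HasCompactSupport ρ)
    {Φ : E d → Al d 1} (hf : StronglyMeasurable Φ) {b : ℝ} (hb : ∀ q, ‖Φ q‖ ≤ b) (p : E d) :
    Integrable (fun y => ρ y •
      (Φ (p + χ p • y)).compContinuousLinearMap (LL (fderiv ℝ χ p) y)) := by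
  have hb0 : 0 ≤ b := (norm_nonneg _).trans (hb 0)
  have hc : Continuous (fun y : E d => LL (fderiv ℝ χ p) y) := by
    unfold LL
    exact continuous_const.add
      ((ContinuousLinearMap.smulRightL ℝ (E d) (E d) (fderiv ℝ χ p)).continuous)
  have h1 : Integrable (fun y => ‖ρ y‖ * (b * (1 + ‖fderiv ℝ χ p‖ * ‖y‖))) := by
    refine Continuous.integrable_of_hasCompactSupport ?_ hgc.norm.mul_right
    fun_prop
  refine h1.mono' ?_ (Eventually.of_forall fun y => ?_)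
  · refine (hg.stronglyMeasurable.smul ?_).aestronglyMeasurable
    refine comp1_cont.comp_stronglyMeasurable (StronglyMeasurable.prodMk ?_ hc.stronglyMeasurable)
    exact hf.comp_measurable (aff_meas _ _)
  · rw [norm_smul]
    refine mul_le_mul_of_nonneg_left ?_ (norm_nonneg _)
    refine (comp1_norm _ _).trans ?_
    have h2 := LL_norm (fderiv ℝ χ p) y
    exact mul_le_mul (hb _) h2 (norm_nonneg _) hb0

theorem JJ1_apply {ρ χ : E d → ℝ} (hg : Continuous ρ) (hgc : HasCompactSupport ρ)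
    {Φ : E d → Al d 1} (hf : StronglyMeasurable Φ) {b : ℝ} (hb : ∀ q, ‖Φ q‖ ≤ b) (p v : E d) :
    JJ1 ρ χ Φ p ![v] = ∫ y, ρ y * Φ (p + χ p • y) ![v + fderiv ℝ χ p v • y] := by
  unfold JJ1
  let L : (Al d 1) →L[ℝ] ℝ := ContinuousAlternatingMap.apply ℝ (E d) ℝ ![v]
  have hL : ∀ η : Al d 1, L η = η ![v] := fun η => rfl
  rw [← hL, ← L.integral_comp_comm (JJ1_int hg hgc hf hb p)]
  refine integral_congr_ae (Eventually.of_forall fun y => ?_)
  dsimp only
  rw [hL]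
  change ρ y * ((Φ (p + χ p • y)).compContinuousLinearMap (LL (fderiv ℝ χ p) y)) ![v] = _
  rw [comp_one]
  rfl

theorem JJ1_add {ρ χ : E d → ℝ} (hg : Continuous ρ) (hgc : HasCompactSupport ρ)
    {Φ Ψ : E d → Al d 1} (hf : StronglyMeasurable Φ) {b : ℝ} (hb : ∀ q, ‖Φ q‖ ≤ b)
    (hf' : StronglyMeasurable Ψ) {b' : ℝ} (hb' : ∀ q, ‖Ψ q‖ ≤ b') (p : E d) :
    JJ1 ρ χ (fun q => Φ q + Ψ q) p = JJ1 ρ χ Φ p + JJ1 ρ χ Ψ p := by
  unfold JJ1
  rw [← integral_add (JJ1_int hg hgc hf hb p) (JJ1_int hg hgc hf' hb' p)]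
  refine integral_congr_ae (Eventually.of_forall fun y => ?_)
  dsimp only
  rw [← smul_add]
  rfl

theorem ev1_sm {Φ : E d → Al d 1} (hf : StronglyMeasurable Φ) (v : E d) :
    StronglyMeasurable (fun q => Φ q ![v]) :=
  (ContinuousAlternatingMap.apply ℝ (E d) ℝ ![v]).continuous.comp_stronglyMeasurable hf

theorem ev1_bd {Φ : E d → Al d 1} {b : ℝ} (hb : ∀ q, ‖Φ q‖ ≤ b) (v : E d) (q : E d) :
    |Φ q ![v]| ≤ b * ‖v‖ :=
  (one_bound _ v).trans (mul_le_mul_of_nonneg_right (hb q) (norm_nonneg _))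

theorem JJ1_expand {ρ χ : E d → ℝ} (hg : Continuous ρ) (hgc : HasCompactSupport ρ)
    {Φ : E d → Al d 1} (hf : StronglyMeasurable Φ) {b : ℝ} (hb : ∀ q, ‖Φ q‖ ≤ b) (p v : E d) :
    JJ1 ρ χ Φ p ![v] = II χ ρ (fun q => Φ q ![v]) p +
      fderiv ℝ χ p v * ∑ i, II χ (fun y => ρ y * y i) (fun q => Φ q ![bs i]) p := by
  rw [JJ1_apply hg hgc hf hb]
  have hgi : ∀ i : Fin d, Continuous (fun y : E d => ρ y * y i) := fun i =>
    hg.mul (EuclideanSpace.proj (𝕜 := ℝ) i).continuous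
  have hgci : ∀ i : Fin d, HasCompactSupport (fun y : E d => ρ y * y i) := fun i =>
    hgc.mul_right
  have i0 := II_int (χ := χ) hg hgc (ev1_sm hf v) (ev1_bd hb v) p
  have i2 := fun i => II_int (χ := χ) (hgi i) (hgci i) (ev1_sm hf (bs i)) (ev1_bd hb (bs i)) p
  have j2 : Integrable (fun y => fderiv ℝ χ p v *
      ∑ i, ρ y * y i * Φ (p + χ p • y) ![bs i]) :=
    (integrable_finsetSum _ (fun i _ => i2 i)).const_mul _
  unfold II
  rw [← integral_finsetSum _ (fun i _ => i2 i), ← integral_const_mul, ← integral_add i0 j2]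
  refine integral_congr_ae (Eventually.of_forall fun y => ?_)
  dsimp only
  rw [expand1, one_sum (Φ (p + χ p • y)) y]
  simp only [Finset.mul_sum, mul_add]
  congr 1
  refine Finset.sum_congr rfl fun i _ => ?_
  ring

section ker

variable {χ : E d → ℝ}

theorem JJ1_smooth (hK : S_KER) (hχ : ContDiff ℝ ∞ χ) {p₀ : E d} (hp : 0 < χ p₀) {ρ : E d → ℝ}
    (hg : ContDiff ℝ ∞ ρ) (hgc : HasCompactSupport ρ) {Φ : E d → Al d 1}
    (hf : StronglyMeasurable Φ) {b : ℝ} (hb : ∀ q, ‖Φ q‖ ≤ b) :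
    ContDiffAt ℝ ∞ (JJ1 ρ χ Φ) p₀ := by
  apply contDiffAt_of_eval1
  intro v
  have e1 : (fun p => JJ1 ρ χ Φ p ![v]) = fun p => II χ ρ (fun q => Φ q ![v]) p +
      fderiv ℝ χ p v * ∑ i, II χ (fun y => ρ y * y i) (fun q => Φ q ![bs i]) p := by
    funext p
    exact JJ1_expand hg.continuous hgc hf hb p v
  rw [e1]
  have hd : ContDiff ℝ ∞ (fderiv ℝ χ) := hχ.fderiv_right (by simp)
  have hdu : ∀ u : E d, ContDiffAt ℝ ∞ (fun p => fderiv ℝ χ p u) p₀ := fun u =>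
    hd.contDiffAt.clm_apply contDiffAt_const
  have hgi : ∀ i : Fin d, ContDiff ℝ ∞ (fun y : E d => ρ y * y i) := fun i =>
    hg.mul (EuclideanSpace.proj (𝕜 := ℝ) i).contDiff
  have hgci : ∀ i : Fin d, HasCompactSupport (fun y : E d => ρ y * y i) := fun i =>
    hgc.mul_right
  refine (II_smooth hK hχ hp hg hgc (ev1_sm hf v) (ev1_bd hb v)).add
    ((hdu v).mul (ContDiffAt.sum fun i _ => ?_))
  exact II_smooth hK hχ hp (hgi i) (hgci i) (ev1_sm hf (bs i)) (ev1_bd hb (bs i))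

/-- the bounds of the scalar averages -/
theorem II_bd1 (hK : S_KER) (hχ : ContDiff ℝ ∞ χ) {p₀ : E d} (hp : 0 < χ p₀) {g : E d → ℝ}
    (hg : ContDiff ℝ ∞ g) (hgc : HasCompactSupport g) : ∃ C : ℝ, 0 ≤ C ∧
    ∀ (v : E d) (Φ : E d → Al d 1) (b : ℝ), StronglyMeasurable Φ → (∀ q, ‖Φ q‖ ≤ b) →
      Integrable Φ →
      |II χ g (fun q => Φ q ![v]) p₀| ≤ C * ‖v‖ * ∫ x, ‖Φ x‖ ∧
      ‖fderiv ℝ (II χ g (fun q => Φ q ![v])) p₀‖ ≤ C * ‖v‖ * ∫ x, ‖Φ x‖ := by
  obtain ⟨C, hC⟩ := (hK d g χ hg hgc hχ p₀ hp).2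
  refine ⟨|C|, abs_nonneg _, ?_⟩
  intro v Φ b hf hb hi
  have hi2 : Integrable (fun q => Φ q ![v]) :=
    (ContinuousAlternatingMap.apply ℝ (E d) ℝ ![v]).integrable_comp hi
  obtain ⟨h1, h2⟩ := hC (fun q => Φ q ![v]) (ev1_sm hf v).aestronglyMeasurable
    ⟨_, ev1_bd hb v⟩ hi2
  have h3 : ∫ x, |Φ x ![v]| ≤ ‖v‖ * ∫ x, ‖Φ x‖ := by
    rw [← integral_const_mul]
    refine integral_mono hi2.abs (hi.norm.const_mul _) fun x => ?_
    have := one_bound (Φ x) v
    dsimp only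
    linarith
  have h4 : C * ∫ x, |Φ x ![v]| ≤ |C| * ‖v‖ * ∫ x, ‖Φ x‖ := by
    have h5 : 0 ≤ ∫ x, |Φ x ![v]| := integral_nonneg fun x => abs_nonneg _
    calc C * ∫ x, |Φ x ![v]| ≤ |C| * ∫ x, |Φ x ![v]| :=
          mul_le_mul_of_nonneg_right (le_abs_self _) h5
      _ ≤ |C| * (‖v‖ * ∫ x, ‖Φ x‖) := mul_le_mul_of_nonneg_left h3 (abs_nonneg _)
      _ = _ := by ring
  exact ⟨h1.trans h4, h2.trans h4⟩

/-- the derivative of the regularization is small if the form is small in mean -/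
theorem JJ1_fd (hK : S_KER) (hχ : ContDiff ℝ ∞ χ) {p₀ : E d} (hp : 0 < χ p₀) {ρ : E d → ℝ}
    (hg : ContDiff ℝ ∞ ρ) (hgc : HasCompactSupport ρ) (v : E d) : ∃ C : ℝ, 0 ≤ C ∧
    ∀ (Φ : E d → Al d 1) (b : ℝ), StronglyMeasurable Φ → (∀ q, ‖Φ q‖ ≤ b) → Integrable Φ →
      ‖fderiv ℝ (fun p => JJ1 ρ χ Φ p ![v]) p₀‖ ≤ C * ∫ x, ‖Φ x‖ := by
  have hd : ContDiff ℝ ∞ (fderiv ℝ χ) := hχ.fderiv_right (by simp)
  have hdu : ∀ u : E d, DifferentiableAt ℝ (fun p => fderiv ℝ χ p u) p₀ := fun u =>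
    (hd.contDiffAt.clm_apply contDiffAt_const).differentiableAt (by simp)
  have hgi : ∀ i : Fin d, ContDiff ℝ ∞ (fun y : E d => ρ y * y i) := fun i =>
    hg.mul (EuclideanSpace.proj (𝕜 := ℝ) i).contDiff
  have hgci : ∀ i : Fin d, HasCompactSupport (fun y : E d => ρ y * y i) := fun i =>
    hgc.mul_right
  obtain ⟨C0, hC0, h0⟩ := II_bd1 hK hχ hp hg hgc
  choose Ci hCi hi using fun i => II_bd1 hK hχ hp (hgi i) (hgci i)
  set α : ℝ := fderiv ℝ χ p₀ v
  set α' := fderiv ℝ (fun p => fderiv ℝ χ p v) p₀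
  refine ⟨C0 * ‖v‖ + (|α| + ‖α'‖) * (∑ i, Ci i * ‖bs i‖), ?_, ?_⟩
  · have h2 : 0 ≤ ∑ i, Ci i * ‖bs i‖ :=
      Finset.sum_nonneg fun i _ => mul_nonneg (hCi i) (by positivity)
    positivity
  intro Φ b hf hb hint
  set m : ℝ := ∫ x, ‖Φ x‖
  have e1 : (fun p => JJ1 ρ χ Φ p ![v]) = fun p => II χ ρ (fun q => Φ q ![v]) p +
      fderiv ℝ χ p v * ∑ i, II χ (fun y => ρ y * y i) (fun q => Φ q ![bs i]) p := by
    funext p
    exact JJ1_expand hg.continuous hgc hf hb p v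
  rw [e1]
  have d0 : HasFDerivAt (II χ ρ (fun q => Φ q ![v]))
      (fderiv ℝ (II χ ρ (fun q => Φ q ![v])) p₀) p₀ :=
    ((II_smooth hK hχ hp hg hgc (ev1_sm hf v) (ev1_bd hb v)).differentiableAt
      (by simp)).hasFDerivAt
  have d2 : ∀ i : Fin d, HasFDerivAt (II χ (fun y => ρ y * y i) (fun q => Φ q ![bs i]))
      (fderiv ℝ (II χ (fun y => ρ y * y i) (fun q => Φ q ![bs i])) p₀) p₀ := fun i =>
    ((II_smooth hK hχ hp (hgi i) (hgci i) (ev1_sm hf (bs i))
      (ev1_bd hb (bs i))).differentiableAt (by simp)).hasFDerivAt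
  have s2 := HasFDerivAt.fun_sum (u := Finset.univ) fun i _ => d2 i
  have hD := d0.add ((hdu v).hasFDerivAt.mul s2)
  have hD' := hD.fderiv
  have hm2 : |∑ i, II χ (fun y => ρ y * y i) (fun q => Φ q ![bs i]) p₀| ≤
      (∑ i, Ci i * ‖bs i‖) * m := by
    rw [Finset.sum_mul]
    exact (Finset.abs_sum_le_sum_abs _ _).trans
      (Finset.sum_le_sum fun i _ => (hi i (bs i) Φ b hf hb hint).1)
  have hn2 : ‖∑ i, fderiv ℝ (II χ (fun y => ρ y * y i) (fun q => Φ q ![bs i])) p₀‖ ≤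
      (∑ i, Ci i * ‖bs i‖) * m := by
    rw [Finset.sum_mul]
    exact (norm_sum_le _ _).trans
      (Finset.sum_le_sum fun i _ => (hi i (bs i) Φ b hf hb hint).2)
  have hz := (h0 v Φ b hf hb hint).2
  refine (le_of_eq (congrArg norm hD')).trans ?_
  refine (norm_add_le _ _).trans ?_
  refine (add_le_add le_rfl (norm_add_le _ _)).trans ?_
  rw [norm_smul, norm_smul, Real.norm_eq_abs, Real.norm_eq_abs]
  have k3 := mul_le_mul_of_nonneg_left hn2 (abs_nonneg α)
  have k4 := mul_le_mul_of_nonneg_right hm2 (norm_nonneg α')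
  calc _ ≤ C0 * ‖v‖ * m + (|α| * ((∑ i, Ci i * ‖bs i‖) * m) +
        (∑ i, Ci i * ‖bs i‖) * m * ‖α'‖) := by
        refine add_le_add hz (add_le_add k3 k4)
    _ = _ := by ring

end ker

end Pool.Agent.Y710.SY
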